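import Pool.Agent.Helper33.IR.Goals

/-!
# Project IR, packet INT
-/

set_option autoImplicit false

namespace Pool.Agent.Helper47.IR

open Pool.Agent.Helper33.IR Finset

theorem sumIcc (f : ℕ → ℝ) (T : ℕ) :
    ∑ b ∈ Finset.Icc 1 T, f b = ∑ b ∈ Finset.range (T + 1), f b - f 0 := by
  induction T with
  | zero => simp
  | succ n ih =>
    rw [Finset.sum_Icc_succ_top (by omega), ih, Finset.sum_range_succ _ (n + 1)]
    ring

theorem gINT : G_SHIFT → G_INT := by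
  intro hS W Z D C hD hW hZ hWC hZC hirr
  choose w hw using hW
  choose z hz using hZ
  have hC : 0 ≤ C := le_trans (abs_nonneg _) (hWC 0)
  have hwR : ∀ b, (D : ℝ) * (W b : ℝ) = (w b : ℝ) := by
    intro b
    have h := hw b
    exact_mod_cast h
  have hzR : ∀ b, (D : ℝ) * (Z b : ℝ) = (z b : ℝ) := by
    intro b
    have h := hz b
    exact_mod_cast h
  rw [Irrational, not_not] at hirr
  obtain ⟨v, hv⟩ := hirr
  refine ⟨v.den, v.pos, fun q p T => ?_⟩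
  have hcv : (v.den : ℝ) * (v : ℝ) = (v.num : ℝ) := by
    have h : (v.den : ℚ) * v = v.num := by
      rw [mul_comm]
      exact Rat.mul_den_eq_num v
    exact_mod_cast h
  have hX : (v.den : ℝ) * ((∑' b : ℕ, (W b : ℝ) / 3 ^ b) + ∑' j : ℕ, (Z j : ℝ) / 4 ^ j) =
      (v.num : ℝ) := by
    rw [← hv]
    exact hcv
  have h3 := hS 3 (fun b => (W b : ℝ)) C (by norm_num) hWC q T
  have h4 := hS 4 (fun j => (Z j : ℝ)) C (by norm_num) hZC p T
  simp only [Nat.cast_ofNat] at h3 h4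
  set X3 : ℝ := ∑' b : ℕ, (W b : ℝ) / 3 ^ b with hX3
  set X4 : ℝ := ∑' j : ℕ, (Z j : ℝ) / 4 ^ j with hX4
  set c : ℝ := (v.den : ℝ) with hc
  have hc0 : 0 ≤ c := by positivity
  refine ⟨D * (4 ^ p - 1) * (3 ^ q - 1) * v.num -
    v.den * (4 ^ p - 1) * (∑ b ∈ Finset.range q, w b * 3 ^ (q - b) + w q - w 0) -
    v.den * (3 ^ q - 1) * (∑ j ∈ Finset.range p, z j * 4 ^ (p - j) + z p - z 0), ?_⟩
  have e3 : ∑ b ∈ Finset.Icc 1 T, c * D * ((W (b + q) : ℝ) - W b) * (4 ^ p - 1) / 3 ^ b =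
      c * D * (4 ^ p - 1) * (∑ b ∈ Finset.range (T + 1), ((W (b + q) : ℝ) - W b) / 3 ^ b -
        ((W q : ℝ) - W 0)) := by
    rw [sumIcc]
    have h0 : ∑ b ∈ Finset.range (T + 1), c * D * ((W (b + q) : ℝ) - W b) * (4 ^ p - 1) / 3 ^ b =
        c * D * (4 ^ p - 1) * ∑ b ∈ Finset.range (T + 1), ((W (b + q) : ℝ) - W b) / 3 ^ b := by
      rw [Finset.mul_sum]
      apply Finset.sum_congr rfl
      intro b _
      ring
    rw [h0]
    simp only [Nat.zero_add, pow_zero]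
    ring
  have e4 : ∑ j ∈ Finset.Icc 1 T, c * D * ((Z (j + p) : ℝ) - Z j) * (3 ^ q - 1) / 4 ^ j =
      c * D * (3 ^ q - 1) * (∑ j ∈ Finset.range (T + 1), ((Z (j + p) : ℝ) - Z j) / 4 ^ j -
        ((Z p : ℝ) - Z 0)) := by
    rw [sumIcc]
    have h0 : ∑ b ∈ Finset.range (T + 1), c * D * ((Z (b + p) : ℝ) - Z b) * (3 ^ q - 1) / 4 ^ b =
        c * D * (3 ^ q - 1) * ∑ b ∈ Finset.range (T + 1), ((Z (b + p) : ℝ) - Z b) / 4 ^ b := by
      rw [Finset.mul_sum]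
      apply Finset.sum_congr rfl
      intro b _
      ring
    rw [h0]
    simp only [Nat.zero_add, pow_zero]
    ring
  rw [e3, e4]
  have s3 : (((∑ b ∈ Finset.range q, w b * 3 ^ (q - b) : ℤ)) : ℝ) =
      D * ∑ b ∈ Finset.range q, (W b : ℝ) * 3 ^ (q - b) := by
    push_cast
    rw [Finset.mul_sum]
    apply Finset.sum_congr rfl
    intro b _
    rw [← hwR]
    ring
  have s4 : (((∑ j ∈ Finset.range p, z j * 4 ^ (p - j) : ℤ)) : ℝ) =
      D * ∑ j ∈ Finset.range p, (Z j : ℝ) * 4 ^ (p - j) := by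
    push_cast
    rw [Finset.mul_sum]
    apply Finset.sum_congr rfl
    intro b _
    rw [← hzR]
    ring
  have hM : ((D * (4 ^ p - 1) * (3 ^ q - 1) * v.num -
    v.den * (4 ^ p - 1) * (∑ b ∈ Finset.range q, w b * 3 ^ (q - b) + w q - w 0) -
    v.den * (3 ^ q - 1) * (∑ j ∈ Finset.range p, z j * 4 ^ (p - j) + z p - z 0) : ℤ) : ℝ) =
      D * (4 ^ p - 1) * (3 ^ q - 1) * (c * (X3 + X4)) -
      c * (4 ^ p - 1) * (D * (∑ b ∈ Finset.range q, (W b : ℝ) * 3 ^ (q - b)) + D * W q - D * W 0) -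
      c * (3 ^ q - 1) * (D * (∑ j ∈ Finset.range p, (Z j : ℝ) * 4 ^ (p - j)) + D * Z p - D * Z 0) := by
    rw [hX, ← s3, ← s4, hwR, hwR, hzR, hzR]
    push_cast
    rfl
  rw [hM]
  set A3 := ∑ b ∈ Finset.range q, (W b : ℝ) * 3 ^ (q - b)
  set A4 := ∑ j ∈ Finset.range p, (Z j : ℝ) * 4 ^ (p - j)
  set B3 := ∑ b ∈ Finset.range (T + 1), ((W (b + q) : ℝ) - W b) / 3 ^ b
  set B4 := ∑ j ∈ Finset.range (T + 1), ((Z (j + p) : ℝ) - Z j) / 4 ^ j
  have key : D * (4 ^ p - 1) * (3 ^ q - 1) * (c * (X3 + X4)) -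
      c * (4 ^ p - 1) * (D * A3 + D * W q - D * W 0) -
      c * (3 ^ q - 1) * (D * A4 + D * Z p - D * Z 0) -
      c * D * (4 ^ p - 1) * (B3 - ((W q : ℝ) - W 0)) -
      c * D * (3 ^ q - 1) * (B4 - ((Z p : ℝ) - Z 0)) =
      (c * D * (4 ^ p - 1)) * ((3 ^ q - 1) * X3 - A3 - B3) +
      (c * D * (3 ^ q - 1)) * ((4 ^ p - 1) * X4 - A4 - B4) := by
    ring
  rw [key]
  have g4 : (1 : ℝ) ≤ 4 ^ p := one_le_pow₀ (by norm_num)
  have g3 : (1 : ℝ) ≤ 3 ^ q := one_le_pow₀ (by norm_num)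
  have hD0 : (0 : ℝ) ≤ D := by positivity
  have k4 : 0 ≤ c * D * ((4 : ℝ) ^ p - 1) := mul_nonneg (mul_nonneg hc0 hD0) (by linarith)
  have k3 : 0 ≤ c * D * ((3 : ℝ) ^ q - 1) := mul_nonneg (mul_nonneg hc0 hD0) (by linarith)
  refine le_trans (abs_add_le _ _) ?_
  rw [abs_mul (c * D * ((4 : ℝ) ^ p - 1)), abs_mul (c * D * ((3 : ℝ) ^ q - 1)),
    abs_of_nonneg k4, abs_of_nonneg k3]
  have f3 : 0 ≤ 2 * C / (3 : ℝ) ^ T := by positivity
  have f4 : 0 ≤ 2 * C / (4 : ℝ) ^ T := by positivity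
  have t3 : c * D * ((4 : ℝ) ^ p - 1) * |(3 ^ q - 1) * X3 - A3 - B3| ≤
      c * D * (4 : ℝ) ^ p * (2 * C / 3 ^ T) := by
    apply mul_le_mul _ h3 (abs_nonneg _) (by positivity)
    apply mul_le_mul_of_nonneg_left (by linarith) (mul_nonneg hc0 hD0)
  have t4 : c * D * ((3 : ℝ) ^ q - 1) * |(4 ^ p - 1) * X4 - A4 - B4| ≤
      c * D * (3 : ℝ) ^ q * (2 * C / 4 ^ T) := by
    apply mul_le_mul _ h4 (abs_nonneg _) (by positivity)
    apply mul_le_mul_of_nonneg_left (by linarith) (mul_nonneg hc0 hD0)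
  refine le_trans (add_le_add t3 t4) (le_of_eq ?_)
  ring

end Pool.Agent.Helper47.IR
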